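import Pool.Agent.Q302.IS.Ana

/-!
# A subgroup of the circle which is not I*-characterized for any ideal

-/

set_option autoImplicit false

open Set Topology Filter

namespace Pool.Agent.Results.MP_8013b9_lc.NotStarCharacterized

/-- `I` is a proper ideal on `ℕ` which contains the finite sets. -/
structure IsIdeal (I : Set (Set ℕ)) : Prop where
  subset : ∀ A ∈ I, ∀ B ⊆ A, B ∈ I
  union : ∀ A ∈ I, ∀ B ∈ I, A ∪ B ∈ I
  finite : ∀ A : Set ℕ, A.Finite → A ∈ I
  proper : Set.univ ∉ I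

/-- The sequence `y` converges to `0` in the usual sense along the complement of `S`. -/
def ConvergesOff (S : Set ℕ) (y : ℕ → UnitAddCircle) : Prop :=
  ∀ ε > 0, ∃ N : ℕ, ∀ n ≥ N, n ∉ S → ‖y n‖ < ε

/-- The subgroup of all `x` for which `(a n) x` is `I*`-convergent to `0`. -/
def starCharacterized (I : Set (Set ℕ)) (a : ℕ → ℤ) : Set UnitAddCircle :=
  {x | ∃ S ∈ I, ConvergesOff S fun n => a n • x}

theorem convergesOff_iff (S : Set ℕ) (y : ℕ → UnitAddCircle) :
    ConvergesOff S y ↔ Tendsto y (cofinite ⊓ 𝓟 Sᶜ) (𝓝 0) := by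
  rw [tendsto_zero_iff_norm_tendsto_zero, Metric.tendsto_nhds]
  refine forall₂_congr fun ε _ => ?_
  rw [eventually_inf_principal, Nat.cofinite_eq_atTop, eventually_atTop]
  refine exists_congr fun N => forall₂_congr fun n _ => ?_
  rw [Real.dist_eq, sub_zero, abs_norm]
  rfl

theorem result : ∃ H : AddSubgroup UnitAddCircle,
    MeasureTheory.AnalyticSet (H : Set UnitAddCircle) ∧
    ∀ (I : Set (Set ℕ)), IsIdeal I → ∀ a : ℕ → ℤ,
      (H : Set UnitAddCircle) ≠ starCharacterized I a := by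
  obtain ⟨D⟩ := Pool.Agent.Q302.IS.exists_data
  refine ⟨D.H, D.analytic_H, fun I hI a heq => ?_⟩
  have hx : D.x₀ ∈ starCharacterized I a := heq ▸ D.x₀_mem
  obtain ⟨S, hS, hSx⟩ := hx
  rw [convergesOff_iff] at hSx
  obtain ⟨h, hh⟩ := D.exists_limit a Sᶜ hSx
  have hX : D.X h ∈ starCharacterized I a := heq ▸ D.X_mem h
  obtain ⟨T, hT, hTx⟩ := hX
  rw [convergesOff_iff] at hTx
  have hZ := hh Tᶜ hTx
  rw [← compl_union, ← convergesOff_iff] at hZ
  have hmem : D.Z h ∈ starCharacterized I a := ⟨S ∪ T, hI.union S hS T hT, hZ⟩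
  rw [← heq] at hmem
  exact D.Z_notMem h hmem

end Pool.Agent.Results.MP_8013b9_lc.NotStarCharacterized
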